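import Pool.Agent.helper58.PKG.Main

set_option autoImplicit false

namespace Pool.Agent.Results.MP_086921_co.SharpPacking

open Pool.Agent.PKG

universe u

/-- For every `k` there is `N` such that for all `n ≥ N` any `k` graphs of order `n` with at most
`n - k` edges each can be packed. For every `k ≥ 2` and every `n ≥ 2 k` there are `k` graphs of order
`n` with at most `n - k + 1` edges each which cannot be packed. -/
theorem result (k : ℕ) :
    (∃ N : ℕ, ∀ n, N ≤ n → ∀ (V : Fin k → Type u) [∀ i, Fintype (V i)]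
      (G : ∀ i, SimpleGraph (V i)), (∀ i, Fintype.card (V i) = n) →
      (∀ i, (G i).edgeSet.ncard + k ≤ n) → CanPack n G) ∧
    (2 ≤ k → ∀ n, 2 * k ≤ n → ∃ G : Fin k → SimpleGraph (Fin n),
      (∀ i, (G i).edgeSet.ncard + k ≤ n + 1) ∧ ¬ CanPack n G) :=
  ⟨pack k, fun hk n hn => sharp k n hk hn⟩

end Pool.Agent.Results.MP_086921_co.SharpPacking
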